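import Pool.Agent.N637.SLK.Lin
import Pool.Agent.N608.SLX.INV

/-! SLK/INV (helper80): truncated inclusion and exclusion for the tuples of the left kernel, with
several forms. Adaptation of `Pool.Agent.N608.SLX.INV` (helper608). -/

set_option autoImplicit false
set_option linter.unusedSectionVars false

open scoped Classical

namespace Pool.Agent.N80.SLK

open Finset Pool.Agent.N637.SLK Pool.Agent.N608.SLX
open Pool.Agent.N637.SLX (IsLk Bf Ind Cor Alt alt gl qf cf hh Ueq Cpt Sol Cmp Srj Aff)

section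

variable {V : Type} [Fintype V]

theorem Fm_symm {L : ℕ} (f : Fin L → V → ZMod 2) (c : Fin L → ZMod 2) (y z : V → ZMod 2) :
    Fm f c y z = Fm f c z y := by
  unfold Fm
  exact sum_congr rfl fun l _ => by rw [Bf_symm]

/-- the form, linear in the first variable -/
def Fl {L : ℕ} (f : Fin L → V → ZMod 2) (c : Fin L → ZMod 2) (z : V → ZMod 2) :
    (V → ZMod 2) →ₗ[ZMod 2] ZMod 2 where
  toFun y := Fm f c y z
  map_add' y y' := by
    unfold Fm
    rw [← sum_add_distrib]
    exact sum_congr rfl fun l _ => by rw [Bf_add, mul_add]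
  map_smul' d y := by
    unfold Fm
    rw [RingHom.id_apply, smul_eq_mul, mul_sum]
    exact sum_congr rfl fun l _ => by rw [Bf_smul]; ring

theorem Fl_apply {L : ℕ} (f : Fin L → V → ZMod 2) (c : Fin L → ZMod 2) (y z : V → ZMod 2) :
    Fl f c z y = Fm f c y z := rfl

/-- the condition for the Gram matrices -/
def PF {k L : ℕ} (f : Fin L → V → ZMod 2) (c : Fin k → Fin L → ZMod 2) (r i : ℕ) (j : Fin k → ℕ)
    (y : Fin (r + i) → V → ZMod 2) : Prop :=
  ∀ x : Fin k, Cor (fun a b : Fin r =>
    Fm f (c x) (y (Fin.castAdd i a)) (y (Fin.castAdd i b))) (j x)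

theorem TnF_eq {k L : ℕ} (w : V → ZMod 2) (f : Fin L → V → ZMod 2) (c : Fin k → Fin L → ZMod 2)
    (N : V → V → ZMod 2) (hw : w ≠ 0) (r i : ℕ) (j : Fin k → ℕ) :
    TnF w f c N r i j =
      (univ.filter fun y : Fin (r + i) → V → ZMod 2 => (∀ a, y a ∈ Lk N) ∧ LI w y ∧
        PF f c r i j y).card := by
  unfold TnF
  refine congrArg card (filter_congr fun y _ => ?_)
  rw [Ind_iff hw]
  rfl

theorem TnF_succ {k L : ℕ} (w : V → ZMod 2) (f : Fin L → V → ZMod 2) (c : Fin k → Fin L → ZMod 2)
    (N : V → V → ZMod 2) (hw : w ≠ 0) (hwL : w ∈ Lk N) (r i : ℕ) (j : Fin k → ℕ) :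
    TnF w f c N r (i + 1) j = TnF w f c N r i j *
      ((univ.filter fun v : V → ZMod 2 => v ∈ Lk N).card - 2 ^ (r + i + 1)) := by
  rw [TnF_eq w f c N hw, TnF_eq w f c N hw]
  exact count_ext (Lk N) hwL (fun y : Fin (r + i) → V → ZMod 2 => PF f c r i j y)

theorem TnF_prod {k L : ℕ} (w : V → ZMod 2) (f : Fin L → V → ZMod 2) (c : Fin k → Fin L → ZMod 2)
    (N : V → V → ZMod 2) (hw : w ≠ 0) (hwL : w ∈ Lk N) (r i : ℕ) (j : Fin k → ℕ) :
    TnF w f c N r i j = TnF w f c N r 0 j *
      ∏ l ∈ range i, ((univ.filter fun v : V → ZMod 2 => v ∈ Lk N).card - 2 ^ (r + l + 1)) := by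
  induction i with
  | zero => rw [prod_range_zero, mul_one]
  | succ i ih => rw [TnF_succ w f c N hw hwL, ih, prod_range_succ, mul_assoc]

/-- the radical and the Gram matrix of a basis -/
theorem rad_cardF {r L : ℕ} {w : V → ZMod 2} {f : Fin L → V → ZMod 2} {c : Fin L → ZMod 2}
    {N : V → V → ZMod 2} (hrad : RadF N f c w)
    {y : Fin r → V → ZMod 2} (hy : ∀ a, y a ∈ Lk N) (hI : LI w y)
    (hL : (univ.filter fun v : V → ZMod 2 => v ∈ Lk N).card = 2 ^ (r + 1)) :
    (univ.filter fun v : V → ZMod 2 => RadF N f c v).card =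
      2 * (univ.filter fun x : Fin r → ZMod 2 =>
        ∀ a, ∑ b, Fm f c (y a) (y b) * x b = 0).card := by
  -- coordinates
  let φ : ZMod 2 × (Fin r → ZMod 2) → V → ZMod 2 := fun z => z.1 • w + ∑ a, z.2 a • y a
  have hφL : ∀ z, φ z ∈ Lk N := fun z =>
    (Lk N).add_mem ((Lk N).smul_mem _ hrad.1) (Submodule.sum_mem _ fun a _ =>
      (Lk N).smul_mem _ (hy a))
  have hinj : Function.Injective φ := by
    intro z z' h
    have hI' := Fintype.linearIndependent_iff.1 hI (Fin.cons (z.1 - z'.1) (z.2 - z'.2)) (by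
      rw [Fin.sum_univ_succ]
      simp only [Fin.cons_zero, Fin.cons_succ, Pi.sub_apply, sub_smul, sum_sub_distrib]
      have h' : z.1 • w + ∑ a, z.2 a • y a = z'.1 • w + ∑ a, z'.2 a • y a := h
      have h2 : z.1 • w - z'.1 • w + (∑ a, z.2 a • y a - ∑ a, z'.2 a • y a) =
        (z.1 • w + ∑ a, z.2 a • y a) - (z'.1 • w + ∑ a, z'.2 a • y a) := by abel
      rw [h2, h', sub_self])
    apply Prod.ext
    · have := hI' 0
      simpa [sub_eq_zero] using this
    · funext a
      have := hI' a.succ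
      simpa [sub_eq_zero] using this
  have himg : (univ : Finset (ZMod 2 × (Fin r → ZMod 2))).image φ =
      univ.filter fun v : V → ZMod 2 => v ∈ Lk N := by
    apply eq_of_subset_of_card_le
    · intro v hv
      obtain ⟨z, -, rfl⟩ := mem_image.1 hv
      exact mem_filter.2 ⟨mem_univ _, hφL z⟩
    · rw [hL, card_image_of_injective _ hinj, card_univ, Fintype.card_prod, Fintype.card_fun,
        ZMod.card, Fintype.card_fin, pow_succ, mul_comm]
  have hsurj : ∀ v, IsLk N v → ∃ z, φ z = v := by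
    intro v hv
    have : v ∈ (univ : Finset (ZMod 2 × (Fin r → ZMod 2))).image φ := by
      rw [himg]; exact mem_filter.2 ⟨mem_univ _, hv⟩
    obtain ⟨z, -, hz⟩ := mem_image.1 this
    exact ⟨z, hz⟩
  have hB : ∀ (z : ZMod 2 × (Fin r → ZMod 2)) (u : V → ZMod 2), IsLk N u →
      Fm f c (φ z) u = ∑ a, z.2 a * Fm f c (y a) u := by
    intro z u hu
    rw [← Fl_apply]
    show Fl f c u (z.1 • w + ∑ a, z.2 a • y a) = _
    rw [map_add, map_smul, Fl_apply, hrad.2 u hu, smul_zero, zero_add, map_sum]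
    exact sum_congr rfl fun a _ => by rw [map_smul, Fl_apply, smul_eq_mul]
  have hrad' : (univ.filter fun v : V → ZMod 2 => RadF N f c v) =
      ((univ : Finset (ZMod 2)) ×ˢ (univ.filter fun x : Fin r → ZMod 2 =>
        ∀ a, ∑ b, Fm f c (y a) (y b) * x b = 0)).image φ := by
    ext v
    simp only [mem_filter, mem_univ, true_and, mem_image, mem_product, Prod.exists]
    constructor
    · intro hv
      obtain ⟨z, rfl⟩ := hsurj v hv.1
      refine ⟨z.1, z.2, fun a => ?_, rfl⟩
      have h1 := hv.2 (y a) (hy a)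
      rw [hB z (y a) (hy a)] at h1
      rw [← h1]
      exact sum_congr rfl fun b _ => by rw [Fm_symm f c (y a) (y b), mul_comm]
    · rintro ⟨d, x, hx, rfl⟩
      refine ⟨hφL _, fun u hu => ?_⟩
      obtain ⟨z, rfl⟩ := hsurj u hu
      rw [Fm_symm, hB z _ (hφL _)]
      apply sum_eq_zero
      intro a _
      rw [Fm_symm, hB (d, x) (y a) (hy a)]
      have h1 : ∑ b, x b * Fm f c (y b) (y a) = 0 := by
        rw [← hx a]
        exact sum_congr rfl fun b _ => by rw [Fm_symm f c (y a) (y b), mul_comm]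
      show z.2 a * ∑ b, x b * Fm f c (y b) (y a) = 0
      rw [h1, mul_zero]
  rw [hrad', card_image_of_injective _ hinj, card_product, card_univ, ZMod.card]

/-- the first number in the critical case -/
theorem TnF_crit {k L : ℕ} {w : V → ZMod 2} {f : Fin L → V → ZMod 2} {c : Fin k → Fin L → ZMod 2}
    {N : V → V → ZMod 2} (hw : w ≠ 0) (hwL : w ∈ Lk N) (hrad : ∀ x, RadF N f (c x) w) {r : ℕ}
    {j : Fin k → ℕ}
    (hL : (univ.filter fun v : V → ZMod 2 => v ∈ Lk N).card = 2 ^ (r + 1)) :
    TnF w f c N r 0 j = if ∀ x, (univ.filter fun v : V → ZMod 2 => RadF N f (c x) v).card =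
      2 ^ (j x + 1) then 2 ^ r * gl r else 0 := by
  rw [TnF_eq w f c N hw]
  have key : ∀ y : Fin r → V → ZMod 2, (∀ a, y a ∈ Lk N) → LI w y →
      ((∀ x, Cor (fun a b : Fin r => Fm f (c x) (y a) (y b)) (j x)) ↔
        ∀ x, (univ.filter fun v : V → ZMod 2 => RadF N f (c x) v).card = 2 ^ (j x + 1)) := by
    intro y hy hI
    refine forall_congr' fun x => ?_
    rw [rad_cardF (hrad x) hy hI hL, pow_succ, mul_comm (2 ^ j x) 2]
    unfold Cor
    constructor
    · intro h; rw [h]
    · intro h; exact Nat.eq_of_mul_eq_mul_left (by norm_num) h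
  have hall := count_all (Lk N) (w := w) hwL hw r
  rw [hL, prod_gl] at hall
  split_ifs with h
  · rw [← hall]
    congr 1
    apply filter_congr
    intro y _
    constructor
    · rintro ⟨h1, h2, -⟩
      exact ⟨h1, h2⟩
    · rintro ⟨h1, h2⟩
      exact ⟨h1, h2, (key y h1 h2).2 h⟩
  · rw [card_eq_zero]
    apply filter_eq_empty_iff.2
    rintro y - ⟨h1, h2, h3⟩
    exact h ((key y h1 h2).1 h3)

end

theorem t_INV : S_INV := by
  intro k₀ L V _ w f c₀ N hw hwL hrad r j m
  have hwL : w ∈ Lk N := hwL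
  set k := Module.finrank (ZMod 2) (Lk N) with hk
  have hLk : (univ.filter fun v : V → ZMod 2 => v ∈ Lk N).card = 2 ^ k := card_sub (Lk N)
  have hCrit : (univ.filter fun v : V → ZMod 2 => IsLk N v).card = 2 ^ k := hLk
  have hgl : (0 : ℝ) < gl r := by exact_mod_cast gl_pos r
  rcases Nat.lt_or_ge k (r + 1) with hkr | hkr
  · -- the left kernel is too small
    have h0 : ∀ i, TnF w f c₀ N r i j = 0 := by
      intro i
      rw [TnF_eq w f c₀ N hw, card_eq_zero]
      apply filter_eq_empty_iff.2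
      rintro y - ⟨h1, h2, -⟩
      have h3 := card_bas hwL h1 h2
      rw [hLk] at h3
      have h4 := (Nat.pow_le_pow_iff_right (show 1 < 2 by norm_num)).1 h3
      omega
    have hC : ¬ CritF N f c₀ r j := by
      rintro ⟨h1, -⟩
      rw [hCrit] at h1
      have := Nat.pow_right_injective (le_refl 2) h1
      omega
    rw [if_neg hC]
    simp only [h0, Nat.cast_zero, mul_zero, zero_div, sum_const_zero, sub_self, abs_zero, le_refl]
  · set X : ℝ := 2 ^ (k - (r + 1)) with hX
    set c : ℝ := (TnF w f c₀ N r 0 j : ℝ) / (2 ^ r * gl r) with hc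
    have hc0 : 0 ≤ c := by positivity
    have hT : ∀ i, (TnF w f c₀ N r i j : ℝ) / cf r i =
        c * ((∏ l ∈ range i, (X - 2 ^ l)) / qf i) := by
      intro i
      rw [TnF_prod w f c₀ N hw hwL, hLk, Nat.cast_mul, prod_real k r hkr i, cf_eq, hc]
      have h1 := (qf_pos i).ne'
      have h2 : (2 : ℝ) ^ ((r + 1) * i) ≠ 0 := by positivity
      rw [← hX]
      field_simp
    have hsum : ∑ i ∈ range (m + 1), (-1) ^ i * (TnF w f c₀ N r i j : ℝ) / cf r i =
        c * ∑ i ∈ range (m + 1), (-1) ^ i * ((∏ l ∈ range i, (X - 2 ^ l)) / qf i) := by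
      rw [mul_sum]
      apply sum_congr rfl
      intro i _
      rw [mul_div_assoc, hT]
      ring
    rw [hsum, hT (m + 1)]
    rcases hkr.eq_or_lt with hkr' | hkr'
    · -- the critical case
      have hX1 : X = 1 := by rw [hX, ← hkr', Nat.sub_self, pow_zero]
      have hA : ∀ i, 1 ≤ i → ∏ l ∈ range i, (X - 2 ^ l) = 0 := by
        intro i hi
        apply prod_eq_zero (i := 0) (mem_range.2 hi)
        rw [hX1, pow_zero, sub_self]
      have hs : ∑ i ∈ range (m + 1), (-1) ^ i * ((∏ l ∈ range i, (X - 2 ^ l)) / qf i) = 1 := by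
        rw [sum_eq_single 0]
        · rw [qf_zero]; simp
        · intro i _ hi
          rw [hA i (by omega)]; simp
        · intro h
          exact absurd (mem_range.2 (Nat.succ_pos m)) h
      rw [hs, hA (m + 1) (by omega), zero_div, mul_zero, mul_one]
      have hL : (univ.filter fun v : V → ZMod 2 => v ∈ Lk N).card = 2 ^ (r + 1) := by
        rw [hLk, ← hkr']
      have hcc : (if CritF N f c₀ r j then (1 : ℝ) else 0) = c := by
        rw [hc, TnF_crit hw hwL hrad hL]
        by_cases h : ∀ x, (univ.filter fun v : V → ZMod 2 => RadF N f (c₀ x) v).card =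
            2 ^ (j x + 1)
        · rw [if_pos h, if_pos ⟨by rw [hCrit, ← hkr'], h⟩]
          push_cast
          rw [div_self]
          positivity
        · rw [if_neg h, if_neg (fun h' => h h'.2)]
          simp
      rw [hcc, sub_self, abs_zero]
    · -- the left kernel is too large
      have hC : ¬ CritF N f c₀ r j := by
        rintro ⟨h1, -⟩
        rw [hCrit] at h1
        have := Nat.pow_right_injective (le_refl 2) h1
        omega
      rw [if_neg hC, alt_sum qf qf_zero qf_succ qf_pos X m, zero_sub, abs_neg, abs_mul,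
        abs_of_nonneg hc0]
      apply mul_le_mul_of_nonneg_left _ hc0
      rw [abs_mul, abs_pow, abs_neg, abs_one, one_pow, one_mul, abs_div, abs_of_pos (qf_pos m)]
      rw [prod_range_succ' (fun l => X - 2 ^ l) m, pow_zero, qf_succ]
      rcases Nat.lt_or_ge m (k - (r + 1)) with hm | hm
      · have hpos : ∀ l ∈ range m, 0 < X - 2 ^ (l + 1) := by
          intro l hl
          have h1 := mem_range.1 hl
          have : (2 : ℝ) ^ (l + 1) < 2 ^ (k - (r + 1)) :=
            pow_lt_pow_right₀ (by norm_num) (by omega)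
          rw [hX]; linarith
        have hP := prod_pos hpos
        rw [abs_of_pos hP]
        have hX2 : (2 : ℝ) ^ (m + 1) ≤ X := by
          rw [hX]; exact pow_le_pow_right₀ (by norm_num) (by omega)
        rw [div_le_div_iff₀ (qf_pos m) (mul_pos (qf_pos m) (two_pow_sub m))]
        have h3 : (2 : ℝ) ^ (m + 1) - 1 ≤ X - 1 := by linarith
        have h4 := mul_le_mul_of_nonneg_left h3 (mul_nonneg hP.le (qf_pos m).le)
        nlinarith [h4]
      · have hz : ∏ l ∈ range m, (X - 2 ^ (l + 1)) = 0 := by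
          apply prod_eq_zero (i := k - (r + 1) - 1)
          · rw [mem_range]; omega
          · rw [hX, show k - (r + 1) - 1 + 1 = k - (r + 1) by omega, sub_self]
        rw [hz]
        simp

end Pool.Agent.N80.SLK
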